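import Pool.Agent.R273.GW3

/-!
MP_e36abb_an: a greedy planar walk with irrational angle, without ties, whose sign sequence is not
eventually periodic.
-/

namespace Pool.Agent.Results.MP_e36abb_an.NonPeriodicSigns

open R273.GW

theorem result : ∃ α : ℝ, α = Real.arccos (-2 / 3) / (2 * Real.pi) ∧ 0 < α ∧ Irrational α ∧
    ∃ z : ℂ, Admissible α z ∧ ¬ EventuallyPeriodic (sign α z) :=
  ⟨al, rfl, al_pos, al_irrational, main⟩

end Pool.Agent.Results.MP_e36abb_an.NonPeriodicSigns
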